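import Mathlib

set_option autoImplicit false

namespace Pool.Agent.H.MP_3b70de_al

open Matrix

def var (l i : ℕ) : ℕ := if l < 3 then 3 * l + i else l - 3 + 3 * i

def val (b l j i : ℕ) : ℕ :=
  if i = 0 then j % 2 else if i = 1 then j / 2 else (j % 2 + j / 2 + if l = 5 then b else 0) % 2

def adj (b l j l' j' : ℕ) : Bool :=
  [0, 1, 2].any fun i => [0, 1, 2].any fun i' =>
    var l i == var l' i' && val b l j i != val b l' j' i'

def GG (b : ℕ) : SimpleGraph (Fin 6 × Fin 4) :=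
  SimpleGraph.fromRel fun v w => adj b v.1 v.2 w.1 w.2 = true

lemma adj_symm : ∀ (b : Fin 2) (l : Fin 6) (j : Fin 4) (l' : Fin 6) (j' : Fin 4),
    adj b l j l' j' = adj b l' j' l j ∧ adj b l j l j = false := by decide +kernel

lemma GG_adj (b : Fin 2) (l : Fin 6) (j : Fin 4) (l' : Fin 6) (j' : Fin 4) :
    (GG b).Adj (l, j) (l', j') ↔ adj b l j l' j' = true := by
  rw [GG, SimpleGraph.fromRel_adj]
  simp only [(adj_symm b l' j' l j).1, or_self, and_iff_right_iff_imp]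
  intro h e
  obtain ⟨rfl, rfl⟩ := Prod.ext_iff.mp e
  simp [(adj_symm b l j l j).2] at h

def xr (j k : Fin 4) : Fin 4 := ⟨(j.val ^^^ k.val) % 4, Nat.mod_lt _ (by norm_num)⟩

def P : Fin 6 → Fin 4 → Matrix (Fin 4) (Fin 4) ℤ :=
  ![
    ![!![1,1,1,1; 1,1,1,1; 1,1,1,1; 1,1,1,1],
      !![1,1,-1,-1; 1,1,-1,-1; -1,-1,1,1; -1,-1,1,1],
      !![1,-1,1,-1; -1,1,-1,1; 1,-1,1,-1; -1,1,-1,1],
      !![1,-1,-1,1; -1,1,1,-1; -1,1,1,-1; 1,-1,-1,1]],
    ![!![4,0,0,0; 0,0,0,0; 0,0,0,0; 0,0,0,0],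
      !![0,0,0,0; 0,4,0,0; 0,0,0,0; 0,0,0,0],
      !![0,0,0,0; 0,0,0,0; 0,0,4,0; 0,0,0,0],
      !![0,0,0,0; 0,0,0,0; 0,0,0,0; 0,0,0,4]],
    ![!![1,1,1,-1; 1,1,1,-1; 1,1,1,-1; -1,-1,-1,1],
      !![1,1,-1,1; 1,1,-1,1; -1,-1,1,-1; 1,1,-1,1],
      !![1,-1,1,1; -1,1,-1,-1; 1,-1,1,1; 1,-1,1,1],
      !![1,-1,-1,-1; -1,1,1,1; -1,1,1,1; -1,1,1,1]],
    ![!![2,0,2,0; 0,0,0,0; 2,0,2,0; 0,0,0,0],
      !![2,0,-2,0; 0,0,0,0; -2,0,2,0; 0,0,0,0],
      !![0,0,0,0; 0,2,0,2; 0,0,0,0; 0,2,0,2],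
      !![0,0,0,0; 0,2,0,-2; 0,0,0,0; 0,-2,0,2]],
    ![!![2,2,0,0; 2,2,0,0; 0,0,0,0; 0,0,0,0],
      !![2,-2,0,0; -2,2,0,0; 0,0,0,0; 0,0,0,0],
      !![0,0,0,0; 0,0,0,0; 0,0,2,2; 0,0,2,2],
      !![0,0,0,0; 0,0,0,0; 0,0,2,-2; 0,0,-2,2]],
    ![!![2,0,0,2; 0,0,0,0; 0,0,0,0; 2,0,0,2],
      !![2,0,0,-2; 0,0,0,0; 0,0,0,0; -2,0,0,2],
      !![0,0,0,0; 0,2,2,0; 0,2,2,0; 0,0,0,0],
      !![0,0,0,0; 0,2,-2,0; 0,-2,2,0; 0,0,0,0]]]

lemma P_sq : ∀ l d, P l d * P l d = 4 • P l d := by decide +kernel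
lemma P_symm : ∀ l d, (P l d)ᵀ = P l d := by decide +kernel
lemma P_sum : ∀ l j, ∑ k, P l (xr j k) = 4 • 1 ∧ ∑ k, P l (xr k j) = 4 • 1 := by decide +kernel
lemma P_orth : ∀ (l : Fin 6) (d : Fin 4) (l' : Fin 6) (d' : Fin 4), adj 1 l d l' d' = true →
    P l d * P l' d' = 0 := by decide +kernel
lemma rel_orth : ∀ (l : Fin 6) (j k : Fin 4) (l' : Fin 6) (j' k' : Fin 4),
    adj 1 l j l' j' = adj 0 l k l' k' ∧ (l = l' → (j = j' ↔ k = k')) ∨
      adj 1 l (xr j k) l' (xr j' k') = true := by decide +kernel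

lemma no6 : ∀ a d : Fin 4, adj 1 0 a 3 d = false → ∀ e : Fin 4, adj 1 0 a 4 e = false →
    ∀ f : Fin 4, adj 1 0 a 5 f = false → ∀ b : Fin 4, adj 1 1 b 3 d = false →
    adj 1 1 b 4 e = false → adj 1 1 b 5 f = false → ∀ c : Fin 4, adj 1 2 c 3 d = false →
    adj 1 2 c 4 e = false → adj 1 2 c 5 f = true := by decide +kernel

lemma same : ∀ (l : Fin 6) (j k : Fin 4), adj 1 l j l k = false → j = k := by decide +kernel

lemma zero6 : ∀ l l' : Fin 6, adj 0 l (0 : Fin 4) l' (0 : Fin 4) = false := by decide +kernel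

/-- the real matrices of the strategy -/
noncomputable def Q (g h : Fin 6 × Fin 4) : Matrix (Fin 4) (Fin 4) ℂ :=
  if g.1 = h.1 then (1 / 4 : ℂ) • (Int.castRingHom ℂ).mapMatrix (P g.1 (xr g.2 h.2)) else 0

lemma Q_sq (g h : Fin 6 × Fin 4) : Q g h * Q g h = Q g h := by
  unfold Q
  split_ifs
  · rw [smul_mul_smul_comm, ← map_mul, P_sq, map_nsmul, ← Nat.cast_smul_eq_nsmul ℂ, smul_smul]
    norm_num
  · simp

lemma Q_star (g h : Fin 6 × Fin 4) : star (Q g h) = Q g h := by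
  unfold Q
  split_ifs
  · ext a b
    have := congrFun (congrFun (P_symm g.1 (xr g.2 h.2)) a) b
    simp only [transpose_apply] at this
    simp [star_apply, this]
  · simp

lemma Q_row (g : Fin 6 × Fin 4) : ∑ h, Q g h = 1 := by
  rw [Fintype.sum_prod_type, Finset.sum_eq_single g.1 (fun l _ hl => by simp [Q, hl.symm]) (by simp)]
  simp only [Q, if_true]
  rw [← Finset.smul_sum, ← map_sum, (P_sum _ _).1, map_nsmul, map_one, ← Nat.cast_smul_eq_nsmul ℂ,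
    smul_smul]
  norm_num

lemma Q_col (h : Fin 6 × Fin 4) : ∑ g, Q g h = 1 := by
  rw [Fintype.sum_prod_type, Finset.sum_eq_single h.1 (fun l _ hl => by simp [Q, hl]) (by simp)]
  simp only [Q, if_true]
  rw [← Finset.smul_sum, ← map_sum, (P_sum _ _).2, map_nsmul, map_one, ← Nat.cast_smul_eq_nsmul ℂ,
    smul_smul]
  norm_num

lemma Q_orth (g h g' h' : Fin 6 × Fin 4)
    (e : ¬ ((g = g' ↔ h = h') ∧ ((GG 1).Adj g g' ↔ (GG 0).Adj h h'))) : Q g h * Q g' h' = 0 := by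
  obtain ⟨l, j⟩ := g
  obtain ⟨m, k⟩ := h
  obtain ⟨l', j'⟩ := g'
  obtain ⟨m', k'⟩ := h'
  unfold Q
  split_ifs with a b
  · simp only at a b
    subst a b
    have := (rel_orth l j k l' j' k').resolve_left fun c => e ⟨by
      simp only [Prod.mk.injEq]; exact and_congr_right c.2, by
      rw [show GG 1 = GG (1 : Fin 2) from rfl, show GG 0 = GG (0 : Fin 2) from rfl, GG_adj, GG_adj]
      exact Eq.congr_left c.1⟩
    rw [smul_mul_smul_comm, ← map_mul, P_orth _ _ _ _ this]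
    simp
  all_goals simp

lemma no_char (c : Fin 6 × Fin 4 → Fin 6 × Fin 4 → ℂ) (h1 : ∀ h, ∑ g, c g h = 1)
    (h2 : ∀ g h g' h', ¬ ((g = g' ↔ h = h') ∧ ((GG 1).Adj g g' ↔ (GG 0).Adj h h')) →
      c g h * c g' h' = 0) : False := by
  have : ∀ l : Fin 6, ∃ g, c g (l, 0) ≠ 0 := fun l => by
    by_contra e
    push Not at e
    simpa [e] using h1 (l, 0)
  choose σ hσ using this
  have r : ∀ l l', l ≠ l' → σ l ≠ σ l' ∧ adj 1 (σ l).1 (σ l).2 (σ l').1 (σ l').2 = false := by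
    intro l l' e
    by_contra n
    refine mul_ne_zero (hσ l) (hσ l') (h2 _ _ _ _ fun a => n ⟨fun f => e ?_, ?_⟩)
    · exact congrArg Prod.fst (a.1.mp f)
    · by_contra f
      have := (GG_adj 0 _ _ _ _).mp (a.2.mp ((GG_adj 1 _ _ _ _).mpr (by simpa using f)))
      exact absurd ((zero6 l l').symm.trans this) (by decide)
  have inj : Function.Injective fun l => (σ l).1 := by
    intro l l' e
    by_contra n
    obtain ⟨a, b⟩ := r l l' n
    have e' : (σ l).1 = (σ l').1 := e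
    rw [← e'] at b
    exact a (Prod.ext e' (same _ _ _ b))
  choose π hπ using Finite.injective_iff_surjective.mp inj
  have s : ∀ l l' : Fin 6, l ≠ l' → adj 1 l (σ (π l)).2 l' (σ (π l')).2 = false := by
    intro l l' e
    have := (r (π l) (π l') fun c => e (by rw [← hπ l, ← hπ l', c])).2
    rwa [show (σ (π l)).1 = l from hπ l, show (σ (π l')).1 = l' from hπ l'] at this
  have := no6 _ _ (s 0 3 (by decide)) _ (s 0 4 (by decide)) _ (s 0 5 (by decide)) _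
    (s 1 3 (by decide)) (s 1 4 (by decide)) (s 1 5 (by decide)) _ (s 2 3 (by decide))
    (s 2 4 (by decide))
  exact absurd ((s 2 5 (by decide)).symm.trans this) (by decide)

end Pool.Agent.H.MP_3b70de_al
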